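import Pool.Agent.R853.CP.Shift

/-!
Commuting invertible compact perturbations of the pair `(T, T)`: they exist exactly when the
Fredholm operator `T` has index zero. In particular they do not exist for the backward shift.
-/

namespace Pool.Agent.Results.MP_b56e9d_an.Dichotomy

open Pool.Agent.R853.CP

universe u

theorem result :
    (∀ (H : Type u) [NormedAddCommGroup H] [InnerProductSpace ℂ H] [CompleteSpace H]
      (T : H →L[ℂ] H), IsFred T → (HasInvPert T ↔ ind T = 0)) ∧
    (∃ T : L2 →L[ℂ] L2, IsFred T ∧ ind T = 1 ∧ ¬ HasInvPert T) := by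
  refine ⟨fun H _ _ _ T hT => dichotomy T hT, bsh, bsh_fred.1, bsh_fred.2, fun h => ?_⟩
  have h1 := (dichotomy bsh bsh_fred.1).1 h
  rw [bsh_fred.2] at h1
  exact one_ne_zero h1

end Pool.Agent.Results.MP_b56e9d_an.Dichotomy
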